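import Mathlib
import Pool.Agent.Q117.Om.Defs

/-!
# A prime algebra in the variety of `𝒜'` which is not a section of `𝒜'`

For every algebraically closed field `k` (more generally for every infinite field) and every
signature `Ω` with an operation symbol of arity at least two there are a prime `Ω`-algebra `𝒜` of
dimension two and an `Ω`-algebra `𝒜'` such that every identity of `𝒜'` holds in `𝒜`, while `𝒜` is
not isomorphic to a section of `𝒜'`.

The algebra `𝒜_c`, `c ∈ k`, has basis `e, f`, each operation of positive arity sends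
`(x_i e + y_i f)_i` to `(∏ x_i) e + (∏ y_i) (e + c f)` and the constants are zero. We take
`𝒜 = 𝒜_0` and `𝒜'` the direct sum of all `𝒜_c` with `c ≠ 0`.
-/

set_option autoImplicit false

namespace Pool.Agent.Results.MP_2fa119_al.NotSection

open Pool.Agent.Q117.Om

universe u v

section

variable {k : Type u} [Field k]

/-- The operations of `𝒜_c`. -/
noncomputable def opl (c : k) (n : ℕ) :
    MultilinearMap k (fun _ : Fin n => (Fin 2 → k)) (Fin 2 → k) :=
  if n = 0 then 0 else
    ((MultilinearMap.mkPiAlgebra k (Fin n) k).compLinearMap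
      (fun _ => LinearMap.proj (0 : Fin 2))).smulRight ![1, 0] +
    ((MultilinearMap.mkPiAlgebra k (Fin n) k).compLinearMap
      (fun _ => LinearMap.proj (1 : Fin 2))).smulRight ![1, c]

theorem opl_zero (c : k) (a : Fin 0 → (Fin 2 → k)) : opl c 0 a = 0 := by
  simp [opl]

theorem opl_succ (c : k) (n : ℕ) (a : Fin (n + 1) → (Fin 2 → k)) :
    opl c (n + 1) a = ![(∏ i, a i 0) + ∏ i, a i 1, c * ∏ i, a i 1] := by
  funext j
  fin_cases j
  · simp [opl]
  · simp [opl, mul_comm]

/-- The algebra `𝒜_c`. -/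
noncomputable def str (Ω : ℕ → Type v) (c : k) : OpStr k Ω (Fin 2 → k) :=
  fun n _ => opl c n

/-- The direct product of all `𝒜_c`, `c ≠ 0`. -/
noncomputable def prodStr (k : Type u) [Field k] (Ω : ℕ → Type v) :
    OpStr k Ω ({c : k // c ≠ 0} → Fin 2 → k) :=
  fun n _ => MultilinearMap.pi (fun c => (opl c.1 n).compLinearMap (fun _ => LinearMap.proj c))

/-- The families with finite support. -/
def finSupp (k : Type u) [Field k] : Submodule k ({c : k // c ≠ 0} → Fin 2 → k) where
  carrier := {x | {c | x c ≠ 0}.Finite}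
  zero_mem' := by simp
  add_mem' := by
    intro x y hx hy
    refine (hx.union hy).subset fun c hc => ?_
    by_contra h
    have h1 : x c = 0 := by
      by_contra h2; exact h (Or.inl h2)
    have h3 : y c = 0 := by
      by_contra h2; exact h (Or.inr h2)
    exact hc (by simp [h1, h3])
  smul_mem' := by
    intro r x hx
    refine Set.Finite.subset hx fun c hc h => hc ?_
    simp [h]

theorem finSupp_isSubalg (Ω : ℕ → Type v) : IsSubalg (prodStr k Ω) (finSupp k) := by
  intro n ω a ha
  rcases n with _ | n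
  · have h0 : prodStr k Ω 0 ω a = 0 := by
      funext c
      show opl c.1 0 (fun i => a i c) = 0
      exact opl_zero _ _
    rw [h0]
    exact (finSupp k).zero_mem
  · refine Set.Finite.subset (ha 0) fun c hc h => hc ?_
    show opl c.1 (n + 1) (fun i => a i c) = 0
    exact (opl c.1 (n + 1)).map_coord_zero (m := fun i => a i c) 0 h

/-- The algebra `𝒜'`: the direct sum of all `𝒜_c` with `c ≠ 0`. -/
noncomputable def bigStr (k : Type u) [Field k] (Ω : ℕ → Type v) : OpStr k Ω (finSupp k) :=
  subStr (prodStr k Ω) (finSupp k) (finSupp_isSubalg Ω)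

theorem bigStr_apply (Ω : ℕ → Type v) (n : ℕ) (ω : Ω n) (a : Fin n → finSupp k)
    (c : {c : k // c ≠ 0}) :
    (bigStr k Ω n ω a : {c : k // c ≠ 0} → Fin 2 → k) c = opl c.1 n (fun i => (a i).1 c) := rfl

/-! ## `𝒜_0` lies in the variety generated by `𝒜'` -/

/-- The projection of `𝒜'` to `𝒜_c`. -/
def pr (c : {c : k // c ≠ 0}) : finSupp k →ₗ[k] (Fin 2 → k) :=
  (LinearMap.proj c).comp (finSupp k).subtype

theorem pr_hom (Ω : ℕ → Type v) (c : {c : k // c ≠ 0}) :
    IsHom (bigStr k Ω) (str Ω c.1) (pr c) := by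
  intro n ω a
  rfl

theorem pr_surj (c : {c : k // c ≠ 0}) (v : Fin 2 → k) : ∃ x : finSupp k, pr c x = v := by
  classical
  refine ⟨⟨Function.update 0 c v, ?_⟩, ?_⟩
  · refine Set.Finite.subset (Set.finite_singleton c) fun d hd => ?_
    by_contra h
    exact hd (by simp [Function.update_of_ne h])
  · simp [pr]

theorem identity_str (Ω : ℕ → Type v) (c : {c : k // c ≠ 0}) (f : Mono Ω →₀ k)
    (hf : IsIdentity (bigStr k Ω) f) : IsIdentity (str Ω c.1) f := by
  intro a
  choose x hx using fun i => pr_surj c (a i)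
  have h := evalPoly_hom (pr_hom Ω c) x f
  rw [hf x, map_zero] at h
  rw [h]
  congr 1
  funext i
  exact (hx i).symm

open Polynomial in
/-- The value of a monomial over the polynomial ring `k[c]`. -/
noncomputable def gen {Ω : ℕ → Type v} (a : ℕ → Fin 2 → k) : Mono Ω → (Fin 2 → k[X])
  | .var i => fun j => C (a i j)
  | .app 0 _ _ => 0
  | .app (_ + 1) _ ts =>
    ![(∏ i, gen a (ts i) 0) + ∏ i, gen a (ts i) 1, X * ∏ i, gen a (ts i) 1]

theorem eval_gen {Ω : ℕ → Type v} (a : ℕ → Fin 2 → k) (c : k) (t : Mono Ω) (j : Fin 2) :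
    (gen a t j).eval c = t.eval (str Ω c) a j := by
  induction t generalizing j with
  | var i => simp [gen, Mono.eval]
  | app n ω ts ih =>
    rcases n with _ | n
    · simp only [gen, Mono.eval]
      show _ = opl c 0 _ j
      rw [opl_zero]
      simp
    · simp only [gen, Mono.eval]
      show _ = opl c (n + 1) _ j
      rw [opl_succ]
      fin_cases j
      · simp [Polynomial.eval_prod, ih]
      · simp [Polynomial.eval_prod, ih]

theorem identity_zero [Infinite k] (Ω : ℕ → Type v) (f : Mono Ω →₀ k)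
    (hf : IsIdentity (bigStr k Ω) f) : IsIdentity (str Ω (0 : k)) f := by
  intro a
  funext j
  let P : Polynomial k := f.sum fun t r => Polynomial.C r * gen a t j
  have hP : ∀ c : k, P.eval c = evalPoly (str Ω c) a f j := by
    intro c
    simp only [P, evalPoly, Finsupp.sum, Polynomial.eval_finsetSum, Polynomial.eval_mul,
      Polynomial.eval_C, eval_gen, Finset.sum_apply, Pi.smul_apply, smul_eq_mul]
  have h0 : P = 0 := by
    apply Polynomial.eq_zero_of_infinite_isRoot
    have h1 : ({0}ᶜ : Set k).Infinite := Set.Finite.infinite_compl (Set.finite_singleton 0)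
    refine h1.mono fun c hc => ?_
    show P.eval c = 0
    rw [hP, identity_str Ω ⟨c, hc⟩ f hf a]
    rfl
  rw [← hP 0, h0]
  simp

/-! ## `𝒜_0` is prime -/

theorem e_mem {Ω : ℕ → Type v} {n : ℕ} (ω : Ω (n + 2)) (I : Submodule k (Fin 2 → k))
    (hI : IsIdeal (str Ω (0 : k)) I) (h : I ≠ ⊥) : (![1, 0] : Fin 2 → k) ∈ I := by
  obtain ⟨x, hx, hx0⟩ := Submodule.exists_mem_ne_zero_of_ne_bot h
  by_cases h0 : x 0 = 0
  · have h1 : x 1 ≠ 0 := by
      intro h1
      apply hx0
      funext j
      fin_cases j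
      · exact h0
      · exact h1
    have h2 := hI (n + 2) ω (Fin.cons x fun _ => ![0, 1]) ⟨0, by simpa using hx⟩
    have h3 : str Ω (0 : k) (n + 2) ω (Fin.cons x fun _ => ![0, 1]) = x 1 • ![1, 0] := by
      show opl 0 (n + 1 + 1) _ = _
      rw [opl_succ]
      funext j
      fin_cases j
      · simp [Fin.prod_univ_succ]
      · simp
    rw [h3] at h2
    exact (I.smul_mem_iff h1).1 h2
  · have h2 := hI (n + 2) ω (Fin.cons x fun _ => ![1, 0]) ⟨0, by simpa using hx⟩
    have h3 : str Ω (0 : k) (n + 2) ω (Fin.cons x fun _ => ![1, 0]) = x 0 • ![1, 0] := by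
      show opl 0 (n + 1 + 1) _ = _
      rw [opl_succ]
      funext j
      fin_cases j
      · simp [Fin.prod_univ_succ]
      · simp
    rw [h3] at h2
    exact (I.smul_mem_iff h0).1 h2

theorem op_e {n : ℕ} (c : k) : opl c (n + 2) (fun _ => ![1, 0]) = ![1, 0] := by
  show opl c (n + 1 + 1) _ = _
  rw [opl_succ]
  simp

theorem prime_zero {Ω : ℕ → Type v} {n : ℕ} (ω : Ω (n + 2)) : IsPrimeAlg (str Ω (0 : k)) := by
  intro I J hI hJ hI0 hJ0 h
  have h1 := e_mem ω I hI hI0
  have h2 := e_mem ω J hJ hJ0
  have h3 : (![1, 0] : Fin 2 → k) ∈ prod (str Ω (0 : k)) (I : Set (Fin 2 → k)) J := by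
    apply Submodule.subset_span
    refine ⟨n + 2, Finsupp.single (.app (n + 2) ω fun i => .var i) 1, fun _ => ![1, 0],
      by omega, ?_, h1, h2, ?_⟩
    · intro t ht i
      have ht' := Finsupp.support_single_subset ht
      rw [Finset.mem_singleton] at ht'
      subst ht'
      simp only [Mono.occ]
      by_cases hi : i < n + 2
      · rw [if_pos hi, Finset.sum_eq_single (⟨i, hi⟩ : Fin (n + 2))]
        · simp
        · intro b _ hb
          rw [if_neg]
          intro h4
          exact hb (Fin.ext h4)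
        · simp
      · rw [if_neg hi]
        apply Finset.sum_eq_zero
        intro b _
        rw [if_neg]
        omega
    · rw [evalPoly, Finsupp.sum_single_index (by simp), one_smul]
      simp only [Mono.eval]
      exact (op_e 0).symm
  rw [h, Submodule.mem_bot] at h3
  have := congrFun h3 0
  simp at this

/-! ## `𝒜_0` is not a section of `𝒜'` -/

/-- The values of an operation of `𝒜_0` are multiples of `e`. -/
theorem opl_zero_snd (n : ℕ) (a : Fin n → (Fin 2 → k)) : opl 0 n a 1 = 0 := by
  rcases n with _ | n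
  · rw [opl_zero]; rfl
  · rw [opl_succ]; simp

theorem cons_coord {m : ℕ} (x y : Fin 2 → k) (j : Fin 2) :
    (∏ i, (Fin.cons x (fun _ => y) : Fin (m + 1 + 1) → (Fin 2 → k)) i j) = x j * (y j) ^ (m + 1) := by
  rw [Fin.prod_univ_succ]
  simp

theorem core {R : Type*} [AddCommGroup R] [Module k R] (m : ℕ)
    (ev : {c : k // c ≠ 0} → R →ₗ[k] (Fin 2 → k)) (ψ : R →ₗ[k] (Fin 2 → k)) (op : R → R → R)
    (hψs : ∀ v, ∃ x, ψ x = v)
    (hop : ∀ x y c, ev c (op x y) =
      ![ev c x 0 * (ev c y 0) ^ (m + 1) + ev c x 1 * (ev c y 1) ^ (m + 1),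
        c.1 * (ev c x 1 * (ev c y 1) ^ (m + 1))])
    (hopψ : ∀ x y, ψ (op x y) =
      ![ψ x 0 * (ψ y 0) ^ (m + 1) + ψ x 1 * (ψ y 1) ^ (m + 1), 0])
    (hfin : ∀ x, {c | ev c x ≠ 0}.Finite) (hinj : ∀ x, (∀ c, ev c x = 0) → x = 0) : False := by
  -- Step 1
  have step1 : ∀ c : {c : k // c ≠ 0}, ∃ x : R, ev c x = 0 ∧ ψ x ≠ 0 := by
    intro c
    by_contra hcon
    push Not at hcon
    obtain ⟨x0, hx0⟩ := hψs ![1, 0]
    obtain ⟨x1, hx1⟩ := hψs ![0, 1]
    have hli : ∀ α β : k, α • ev c x0 + β • ev c x1 = 0 → α = 0 ∧ β = 0 := by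
      intro α β h
      have h1 := hcon (α • x0 + β • x1) (by rw [map_add, map_smul, map_smul, h])
      rw [map_add, map_smul, map_smul, hx0, hx1] at h1
      have h2 := congrFun h1 0
      have h3 := congrFun h1 1
      simp at h2 h3
      exact ⟨h2, h3⟩
    have hli' : LinearIndependent k ![ev c x0, ev c x1] := by
      rw [LinearIndependent.pair_iff]
      exact hli
    have hspan : ∀ v : Fin 2 → k, ∃ x : R, ev c x = v := by
      intro v
      have h1 : Submodule.span k (Set.range ![ev c x0, ev c x1]) = ⊤ :=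
        hli'.span_eq_top_of_card_eq_finrank (by simp)
      have h2 : v ∈ Submodule.span k (Set.range ![ev c x0, ev c x1]) := by
        rw [h1]; trivial
      rw [Matrix.range_cons, Matrix.range_cons, Matrix.range_empty, Set.union_empty,
        Set.singleton_union, Submodule.mem_span_pair] at h2
      obtain ⟨α, β, h3⟩ := h2
      exact ⟨α • x0 + β • x1, by rw [map_add, map_smul, map_smul, h3]⟩
    have hdep : ∀ x y : R, ev c x = ev c y → ψ x = ψ y := by
      intro x y h
      have h1 := hcon (x - y) (by rw [map_sub, h, sub_self])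
      rw [map_sub, sub_eq_zero] at h1
      exact h1
    obtain ⟨x, hx⟩ := hspan ![1, 0]
    obtain ⟨y, hy⟩ := hspan ![0, 1]
    have h1 : ψ x 1 = 0 := by
      have h2 : ψ (op x x) = ψ x := by
        apply hdep
        rw [hop, hx]
        simp
      rw [← h2, hopψ]
      simp
    have h3 : ψ y 1 = 0 := by
      have h2 : ψ (op y y) = ψ (x + c.1 • y) := by
        apply hdep
        rw [hop, map_add, map_smul, hx, hy]
        funext j
        fin_cases j <;> simp
      have h4 := congrFun h2 1
      rw [hopψ, map_add, map_smul] at h4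
      simp [h1] at h4
      rcases h4 with h4 | h4
      · exact absurd h4 c.2
      · exact h4
    obtain ⟨z, hz⟩ := hψs ![0, 1]
    have h5 : ψ z = ψ (ev c z 0 • x + ev c z 1 • y) := by
      apply hdep
      rw [map_add, map_smul, map_smul, hx, hy]
      funext j
      fin_cases j <;> simp
    have h6 := congrFun h5 1
    rw [hz, map_add, map_smul, map_smul] at h6
    simp [h1, h3] at h6
  -- Step 2
  have step2 : ∀ c : {c : k // c ≠ 0}, ∃ x : R, ev c x = 0 ∧ ψ x = ![1, 0] := by
    intro c
    obtain ⟨x, hx, hx0⟩ := step1 c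
    by_cases h0 : ψ x 0 = 0
    · have h1 : ψ x 1 ≠ 0 := by
        intro h1
        apply hx0
        funext j
        fin_cases j
        · exact h0
        · exact h1
      obtain ⟨y, hy⟩ := hψs ![0, 1]
      refine ⟨(ψ x 1)⁻¹ • op x y, ?_, ?_⟩
      · rw [map_smul, hop, hx]
        funext j
        fin_cases j <;> simp
      · rw [map_smul, hopψ, hy]
        funext j
        fin_cases j <;> simp [h1]
    · obtain ⟨y, hy⟩ := hψs ![1, 0]
      refine ⟨(ψ x 0)⁻¹ • op x y, ?_, ?_⟩
      · rw [map_smul, hop, hx]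
        funext j
        fin_cases j <;> simp
      · rw [map_smul, hopψ, hy]
        funext j
        fin_cases j <;> simp [h0]
  -- Step 3
  have step3 : ∀ S : Finset {c : k // c ≠ 0}, ∃ x : R, (∀ c ∈ S, ev c x = 0) ∧
      ψ x = ![1, 0] := by
    classical
    intro S
    induction S using Finset.induction_on with
    | empty =>
      obtain ⟨x, hx⟩ := hψs ![1, 0]
      exact ⟨x, by simp, hx⟩
    | insert c S _ ih =>
      obtain ⟨x, hx, hx1⟩ := ih
      obtain ⟨y, hy, hy1⟩ := step2 c
      refine ⟨op x y, ?_, ?_⟩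
      · intro d hd
        rw [hop]
        rcases Finset.mem_insert.1 hd with rfl | hd
        · rw [hy]
          funext j
          fin_cases j <;> simp
        · rw [hx d hd]
          funext j
          fin_cases j <;> simp
      · rw [hopψ, hx1, hy1]
        funext j
        fin_cases j <;> simp
  -- Step 4
  obtain ⟨s, hs⟩ := hψs ![1, 0]
  obtain ⟨x, hx, hx1⟩ := step3 (hfin s).toFinset
  have h1 : op x s = 0 := by
    apply hinj
    intro c
    rw [hop]
    by_cases hc : ev c s = 0
    · rw [hc]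
      funext j
      fin_cases j <;> simp
    · rw [hx c (by simpa using hc)]
      funext j
      fin_cases j <;> simp
  have h2 := hopψ x s
  rw [h1, map_zero, hx1, hs] at h2
  have h3 := congrFun h2 0
  simp at h3

theorem opl_cons (c : k) (m : ℕ) (x y : Fin 2 → k) :
    opl c (m + 2) (Fin.cons x (fun _ => y)) =
      ![x 0 * (y 0) ^ (m + 1) + x 1 * (y 1) ^ (m + 1), c * (x 1 * (y 1) ^ (m + 1))] := by
  show opl c (m + 1 + 1) _ = _
  rw [opl_succ, cons_coord, cons_coord]

theorem not_section {Ω : ℕ → Type v} {m : ℕ} (ω : Ω (m + 2)) :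
    ¬ IsoToSection (str Ω (0 : k)) (bigStr k Ω) := by
  intro h
  obtain ⟨R, hR, ψ, hψ, hs⟩ := h.exists_hom
  have hs' : ∀ v : Fin 2 → k, ∃ x, ψ x = v := fun v => hs v
  refine core (k := k) (R := R) m (fun c => (pr c) ∘ₗ R.subtype) ψ
    (fun x y => subStr (bigStr k Ω) R hR (m + 2) ω (Fin.cons x fun _ => y)) hs' ?_ ?_ ?_ ?_
  · intro x y c
    rw [← opl_cons]
    show opl c.1 (m + 2) _ = _
    congr 1
    funext i
    refine Fin.cases ?_ (fun i => ?_) i
    · rfl
    · rfl
  · intro x y
    rw [hψ]
    have h2 : (fun i => ψ ((Fin.cons x fun _ => y : Fin (m + 2) → R) i)) =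
        (Fin.cons (ψ x) fun _ => ψ y : Fin (m + 2) → (Fin 2 → k)) := by
      funext i
      refine Fin.cases ?_ (fun i => ?_) i
      · rfl
      · rfl
    rw [h2]
    show opl (0 : k) (m + 2) _ = _
    rw [opl_cons, zero_mul]
  · intro x
    exact x.1.2
  · intro x hx
    apply Subtype.ext
    apply Subtype.ext
    funext c
    exact hx c

end

/-- Let `k` be an infinite field (for example an algebraically closed one) and let `Ω` be a
signature with an operation symbol of arity at least two. There are a two-dimensional prime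
`Ω`-algebra `𝒜` over `k` and an `Ω`-algebra `𝒜'` over `k` such that every identity of `𝒜'` is an
identity of `𝒜`, while `𝒜` is not isomorphic to a section of `𝒜'`. -/
theorem result (k : Type u) [Field k] [Infinite k] (Ω : ℕ → Type v)
    (hΩ : ∃ n, 2 ≤ n ∧ Nonempty (Ω n)) :
    ∃ (A : Type u) (_ : AddCommGroup A) (_ : Module k A) (s : OpStr k Ω A)
      (A' : Type u) (_ : AddCommGroup A') (_ : Module k A') (s' : OpStr k Ω A'),
      FiniteDimensional k A ∧ Module.finrank k A = 2 ∧ IsPrimeAlg s ∧
      (∀ f : Mono Ω →₀ k, IsIdentity s' f → IsIdentity s f) ∧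
      ¬ IsoToSection s s' := by
  obtain ⟨n, hn, ⟨ω⟩⟩ := hΩ
  obtain ⟨m, rfl⟩ : ∃ m, n = m + 2 := ⟨n - 2, by omega⟩
  exact ⟨Fin 2 → k, inferInstance, inferInstance, str Ω 0, finSupp k, inferInstance,
    inferInstance, bigStr k Ω, inferInstance, by simp, prime_zero ω, identity_zero Ω,
    not_section ω⟩

end Pool.Agent.Results.MP_2fa119_al.NotSection
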